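import Pool.Agent.Lib.MP_3a4f2f_gt.Defs

/-!
Closed braids given by positive band generators.
-/

set_option autoImplicit false

namespace Pool.Agent.Lib.MP_3a4f2f_gt.H89

/-- The positive band generator joining strands `i < j` (numbered from `0`): with `s k` the
positive crossing of strands `k`, `k+1`, it is
`(s (j-1) ⋯ s (i+1)) * s i * (s (j-1) ⋯ s (i+1))⁻¹`. -/
def band (i j : ℕ) : Word :=
  ((List.range (j - i - 1)).map fun t => (Letter.cr true, j - 1 - t)) ++ (Letter.cr true, i) ::
    (List.range (j - i - 1)).map fun t => (Letter.cr false, i + 1 + t)

/-- The closure of the braid on `n` strands which is the product of the bands in `bs`: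
`n` nested cups, the braid on the upper `n` strands (all running rightwards), `n` nested caps. -/
def bandClosure (n : ℕ) (bs : List (ℕ × ℕ)) : Word :=
  ((List.range n).map fun i => (Letter.cup true, i)) ++ (bs.flatMap fun b => band b.1 b.2) ++
    (List.range n).map fun i => (Letter.cap, n - 1 - i)

end Pool.Agent.Lib.MP_3a4f2f_gt.H89
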