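import Pool.Agent.Lib.MP_3a4f2f_gt.Defs

/-!
Closed braids and unknotting by crossing changes.
-/

set_option autoImplicit false

namespace Pool.Agent.Lib.MP_3a4f2f_gt.H89

/-- The closure of a braid on `n` strands, all running rightwards; `(true, i)` is the positive and
`(false, i)` the negative crossing of strands `i`, `i+1` (numbered from `0`). -/
def braidClosure (n : ℕ) (br : List (Bool × ℕ)) : Word :=
  ((List.range n).map fun i => (Letter.cup true, i)) ++ (br.map fun g => (Letter.cr g.1, g.2)) ++
    (List.range n).map fun i => (Letter.cap, n - 1 - i)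

/-- `Unk n w`: the diagram `w` becomes the circle by isotopy moves through oriented diagrams and
exactly `n` crossing changes. -/
inductive Unk : ℕ → Word → Prop where
  | circle (d : Bool) : Unk 0 [(.cup d, 0), (.cap, 0)]
  | fwd {n : ℕ} (u v x y : Word) : Move x y → Valid [] (u ++ x ++ v) [] →
      Valid [] (u ++ y ++ v) [] → Unk n (u ++ y ++ v) → Unk n (u ++ x ++ v)
  | bwd {n : ℕ} (u v x y : Word) : Move x y → Valid [] (u ++ x ++ v) [] →
      Valid [] (u ++ y ++ v) [] → Unk n (u ++ x ++ v) → Unk n (u ++ y ++ v)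
  | change {n : ℕ} (u v : Word) (b : Bool) (i : ℕ) :
      Unk n (u ++ (.cr (!b), i) :: v) → Unk (n + 1) (u ++ (.cr b, i) :: v)

end Pool.Agent.Lib.MP_3a4f2f_gt.H89
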