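import Pool.Agent.Lib.MP_3a4f2f_gt.H89.Moves

/-!
Expansion of tangles in the basis of layered arcs.
-/

set_option autoImplicit false

namespace Pool.Agent.Lib.MP_3a4f2f_gt.H89

open LaurentPolynomial

/-- The layered tangle: the head of the list is the top arc. -/
def B : List ℕ → Word
  | [] => []
  | r :: S => B S ++ arc r

lemma cn_B (S : List ℕ) : cn 0 (B S) = 2 * S.length := by
  induction S with
  | nil => rfl
  | cons r S ih => rw [B, cn_arc, ih, List.length_cons]; ring

/-- A monomial: exponents of `a` and `z`, coefficient. -/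
abbrev Mo : Type := (ℤ × ℤ) × ℤ

abbrev It : Type := List ℕ × Mo

def Mo.mul (s t : Mo) : Mo := ((s.1.1 + t.1.1, s.1.2 + t.1.2), s.2 * t.2)

noncomputable def mon (t : Mo) : L2 := (t.2 : L2) * T t.1.1 * C (T t.1.2)

lemma mon_mul (s t : Mo) : mon (s.mul t) = mon s * mon t := by
  simp only [mon, Mo.mul, T_add, map_mul, Int.cast_mul]; ring

noncomputable def ev (Q : Word → L2) (Y : List It) (v : Word) : L2 :=
  (Y.map fun t => mon t.2 * Q (B t.1 ++ v)).sum

variable {Q : Word → L2}

lemma ev_nil (v : Word) : ev Q [] v = 0 := rfl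

lemma ev_cons (t : It) (Y : List It) (v : Word) :
    ev Q (t :: Y) v = mon t.2 * Q (B t.1 ++ v) + ev Q Y v := by simp [ev]

lemma ev_append (Y Z : List It) (v : Word) : ev Q (Y ++ Z) v = ev Q Y v + ev Q Z v := by simp [ev]

def pre (r : ℕ) (Y : List It) : List It := Y.map fun t => (r :: t.1, t.2)

lemma ev_pre (r : ℕ) (Y : List It) (v : Word) : ev Q (pre r Y) v = ev Q Y (arc r ++ v) := by
  simp [ev, pre, B, Function.comp_def]

def scl (m : Mo) (Y : List It) : List It := Y.map fun t => (t.1, m.mul t.2)

lemma ev_scl (m : Mo) (Y : List It) (v : Word) : ev Q (scl m Y) v = mon m * ev Q Y v := by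
  induction Y with
  | nil => simp [scl, ev]
  | cons t Y ih =>
    have : scl m (t :: Y) = (t.1, m.mul t.2) :: scl m Y := rfl
    rw [this, ev_cons, ev_cons, ih, mon_mul]; ring

def cupI : ℕ → List ℕ → List ℕ
  | i, [] => [i]
  | 0, r :: S => 0 :: r :: S
  | i + 1, r :: S => if r < i then r :: cupI (i - 1) S else (r + 2) :: cupI i S

lemma cupI_length (i : ℕ) (R : List ℕ) : (cupI i R).length = R.length + 1 := by
  induction R generalizing i with
  | nil => rfl
  | cons r S ih =>
    cases i with
    | zero => rfl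
    | succ i => rw [cupI]; split_ifs <;> simp [ih]

lemma KS.cupI (h : KS Q) (i : ℕ) (R : List ℕ) (v : Word) :
    Q (B R ++ U i :: v) = Q (B (cupI i R) ++ v) := by
  induction R generalizing i v with
  | nil =>
    cases i with
    | zero => rfl
    | succ i =>
      exact (h.inv [] v _ _ (by simp [cn])).trans (h.arc_inv [] v (i + 1) (by simp [cn])).symm
  | cons r S ih =>
    cases i with
    | zero => simp [H89.cupI, B, arc, dn]
    | succ i =>
      rw [H89.cupI]
      split_ifs with hr
      · obtain ⟨j, rfl⟩ : ∃ j, i = j + 1 := ⟨i - 1, by omega⟩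
        rw [B, B, List.append_assoc, List.append_assoc, Nat.add_sub_cancel, ← ih]
        exact h.arcB (.cup true) r j (by omega) _ _
      · obtain ⟨k, rfl⟩ : ∃ k, r = i + k := ⟨r - i, by omega⟩
        rw [B, B, List.append_assoc, List.append_assoc, ← ih, show i + k + 2 = i + 2 + k by omega]
        exact h.arcU (.cup true) i k _ _

abbrev Act : Type := Letter × ℕ → List ℕ → List It

def app (F : Act) (g : Letter × ℕ) : List It → List It
  | [] => []
  | t :: Y => scl t.2 (F g t.1) ++ app F g Y

def chain (F : Act) : Word → List It → List It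
  | [], Y => Y
  | g :: w, Y => chain F w (app F g Y)

def capS (F : Act) (i r : ℕ) (S : List ℕ) : List It :=
  if r + 2 ≤ i then pre r (F (A (i - 2)) S)
  else if i = r + 1 then chain F (up r) [(S, (0, 0), 1)]
  else if i = 0 then
    (if r = 0 then [(S, (1, -1), 1), (S, (-1, -1), 1), (S, (0, 0), -1)]
      else chain F (dn 0 (r - 1)) [(S, (1, 0), 1)])
  else if i = r then chain F (up (r - 1)) [(S, (-1, 0), 1)]
  else pre (r - 2) (F (A (i - 1)) S)

def skn (F : Act) (b c : Bool) (i r : ℕ) (S R' : List ℕ) : List It :=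
  if b = c then [(R', (0, 0), 1)]
  else (R', (0, 0), -1) :: (r :: S, (0, 1), 1) ::
    (capS F i r S).map fun t => (cupI i t.1, Mo.mul ((0, 1), 1) t.2)

def crS (F : Act) (b : Bool) (i r : ℕ) (S : List ℕ) : List It :=
  if r + 2 ≤ i then pre r (F (X b (i - 2)) S)
  else if i = r + 1 then skn F b true i r S ((r + 1) :: S)
  else if i = 0 then
    (if r = 0 then [(r :: S, (if b then -1 else 1, 0), 1)]
      else match S with
        | [] => []
        | s :: S' => if s + 2 ≤ r then skn F b false i r S ((s + 1) :: (r - 2) :: S')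
            else skn F b true i r S ((s + 2) :: (r - 1) :: S'))
  else if i = r then skn F b false i r S ((r - 1) :: S)
  else pre r (F (X b (i - 1)) S)

def step (F : Act) : Act
  | (.cup _, i), R => [(cupI i R, (0, 0), 1)]
  | (.cap, _), [] => []
  | (.cr _, _), [] => []
  | (.cap, i), r :: S => if 2 * S.length < i ∨ 2 * S.length < r then [] else capS F i r S
  | (.cr b, i), r :: S => if 2 * S.length < i ∨ 2 * S.length < r then [] else crS F b i r S

def act : ℕ → Act
  | 0 => step fun _ _ => []
  | f + 1 => step (act f)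

/-! Lengths. -/

def Le (n : ℕ) (Y : List It) : Prop := ∀ t ∈ Y, 2 * t.1.length ≤ n

def Len (F : Act) : Prop := ∀ g R, Le (2 * R.length - g.1.inp + g.1.out) (F g R)

def Crs (w : Word) : Prop := ∀ g ∈ w, ∃ b i, g = X b i

lemma crs_up (r : ℕ) : Crs (up r) := by
  induction r with
  | zero => simp [Crs, up]
  | succ r ih => exact List.forall_mem_cons.2 ⟨⟨_, _, rfl⟩, ih⟩

lemma crs_dn (r s : ℕ) : Crs (dn s r) := by
  induction r generalizing s with
  | zero => simp [Crs, dn]
  | succ r ih => exact List.forall_mem_cons.2 ⟨⟨_, _, rfl⟩, ih _⟩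

lemma Le.pre {n m : ℕ} {Y : List It} (h : Le n Y) (r : ℕ) (e : n + 2 ≤ m) : Le m (pre r Y) := by
  intro t ht
  obtain ⟨s, hs, rfl⟩ := List.mem_map.1 ht
  have := h s hs
  simp only [List.length_cons]; omega

lemma Le.app {F : Act} (hF : Len F) {n : ℕ} (hn : 2 ≤ n) (b : Bool) (i : ℕ) {Y : List It}
    (h : Le n Y) : Le n (app F (X b i) Y) := by
  induction Y with
  | nil => exact h
  | cons t Y ih =>
    intro s hs
    rcases List.mem_append.1 hs with hs | hs
    · obtain ⟨s', hs', rfl⟩ := List.mem_map.1 hs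
      have h1 := hF _ _ s' hs'
      have h2 := h t List.mem_cons_self
      simp only [X, Letter.inp, Letter.out] at h1 ⊢
      omega
    · exact ih (fun t ht => h t (List.mem_cons_of_mem _ ht)) s hs

lemma Le.chain {F : Act} (hF : Len F) {n : ℕ} (hn : 2 ≤ n) {w : Word} (hw : Crs w) {Y : List It}
    (h : Le n Y) : Le n (chain F w Y) := by
  induction w generalizing Y with
  | nil => exact h
  | cons g w ih =>
    obtain ⟨b, i, rfl⟩ := hw g List.mem_cons_self
    exact ih (fun g hg => hw g (List.mem_cons_of_mem _ hg)) (h.app hF hn b i)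

lemma le_one (S : List ℕ) (m : Mo) : Le (2 * S.length) [(S, m)] := by simp [Le]

lemma le_capS {F : Act} (hF : Len F) (i r : ℕ) (S : List ℕ) (hi : i ≤ 2 * S.length)
    (hr : r ≤ 2 * S.length) : Le (2 * S.length) (capS F i r S) := by
  unfold capS
  split_ifs with h1 h2 h3 h4 h5
  · exact (hF _ _).pre _ (by simp only [A, Letter.inp, Letter.out]; omega)
  · exact (le_one _ _).chain hF (by omega) (crs_up _)
  · simp [Le]
  · exact (le_one _ _).chain hF (by omega) (crs_dn _ _)
  · exact (le_one _ _).chain hF (by omega) (crs_up _)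
  · exact (hF _ _).pre _ (by simp only [A, Letter.inp, Letter.out]; omega)

lemma le_skn {F : Act} (hF : Len F) (b c : Bool) (i r : ℕ) (S R' : List ℕ)
    (hi : i ≤ 2 * S.length) (hr : r ≤ 2 * S.length) (e : R'.length = S.length + 1) :
    Le (2 * S.length + 2) (skn F b c i r S R') := by
  unfold skn
  split_ifs
  · simp [Le, e]; omega
  · intro t ht
    simp only [List.mem_cons, List.mem_map] at ht
    rcases ht with rfl | rfl | ⟨s, hs, rfl⟩
    · simp only [e]; omega
    · simp only [List.length_cons]; omega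
    · have := le_capS hF i r S hi hr s hs
      simp only [cupI_length]; omega

lemma len_step {F : Act} (hF : Len F) : Len (step F) := by
  rintro ⟨g, i⟩ R
  cases g with
  | cup d => simp [step, Le, cupI_length, Letter.inp, Letter.out]; omega
  | cap =>
    cases R with
    | nil => simp [step, Le]
    | cons r S =>
      rw [step]
      split_ifs with h
      · simp [Le]
      · exact le_capS hF i r S (by omega) (by omega)
  | cr b =>
    cases R with
    | nil => simp [step, Le]
    | cons r S =>
      rw [step]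
      split_ifs with h
      · simp [Le]
      have hi : i ≤ 2 * S.length := by omega
      have hr : r ≤ 2 * S.length := by omega
      show Le (2 * S.length + 2) _
      unfold crS
      split_ifs with h1 h2 h3 h4 h5 h6
      · exact (hF _ _).pre _ (by simp only [X, Letter.inp, Letter.out]; omega)
      · exact le_skn hF _ _ _ _ _ _ hi hr rfl
      · simp [Le]; omega
      · simp [Le]; omega
      · cases S with
        | nil => simp [Le]
        | cons s S' =>
          dsimp only
          split_ifs <;> exact le_skn hF _ _ _ _ _ _ hi hr rfl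
      · exact le_skn hF _ _ _ _ _ _ hi hr rfl
      · exact (hF _ _).pre _ (by simp only [X, Letter.inp, Letter.out]; omega)

lemma len_act (f : ℕ) : Len (act f) := by
  induction f with
  | zero => exact len_step fun _ _ => by simp [Le]
  | succ f ih => exact len_step ih

/-! Soundness. -/

def Snd (Q : Word → L2) (F : Act) (n : ℕ) : Prop :=
  ∀ g R v, 2 * R.length ≤ n → v ≠ [] → Q (B R ++ g :: v) = ev Q (F g R) v

lemma Snd.app {F : Act} {n : ℕ} (h : Snd Q F n) (g : Letter × ℕ) {Y : List It} (hY : Le n Y)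
    {v : Word} (hv : v ≠ []) : ev Q Y (g :: v) = ev Q (app F g Y) v := by
  induction Y with
  | nil => rw [H89.app, ev_nil, ev_nil]
  | cons t Y ih =>
    rw [H89.app, ev_cons, ev_append, ev_scl, h g t.1 v (hY t List.mem_cons_self) hv,
      ih fun t ht => hY t (List.mem_cons_of_mem _ ht)]

lemma Snd.chain {F : Act} {n : ℕ} (h : Snd Q F n) (hF : Len F) (hn : 2 ≤ n) {w : Word}
    (hw : Crs w) {Y : List It} (hY : Le n Y) {v : Word} (hv : v ≠ []) :
    ev Q Y (w ++ v) = ev Q (chain F w Y) v := by
  induction w generalizing Y with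
  | nil => rw [H89.chain, List.nil_append]
  | cons g w ih =>
    obtain ⟨b, i, rfl⟩ := hw g List.mem_cons_self
    rw [List.cons_append, h.app _ hY (by simp [hv]), H89.chain]
    exact ih (fun g hg => hw g (List.mem_cons_of_mem _ hg)) (hY.app hF hn b i)

lemma arc_ne (r : ℕ) (v : Word) : arc r ++ v ≠ [] := by simp [arc]

lemma ev_one (S : List ℕ) (i : ℤ) (v : Word) :
    ev Q [(S, (i, 0), 1)] v = T i * Q (B S ++ v) := by simp [ev, mon]

lemma snd_capS (h : KS Q) {F : Act} {n : ℕ} (hS : Snd Q F n) (hF : Len F) (i r : ℕ) (S : List ℕ)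
    (hn : 2 * S.length ≤ n) (hi : i ≤ 2 * S.length) (hr : r ≤ 2 * S.length) (v : Word)
    (hv : v ≠ []) : Q (B (r :: S) ++ A i :: v) = ev Q (capS F i r S) v := by
  have hc := cn_B S
  have hl : Le n [(S, ((0, 0), 1))] ∧ Le n [(S, ((1, 0), 1))] ∧ Le n [(S, ((-1, 0), 1))] := by
    simp [Le, hn]
  rw [B, List.append_assoc]
  unfold capS
  split_ifs with h1 h2 h3 h4 h5
  · obtain ⟨j, rfl⟩ : ∃ j, i = j + 2 := ⟨i - 2, by omega⟩
    rw [ev_pre, Nat.add_sub_cancel, ← hS _ _ _ hn (arc_ne _ _)]
    exact h.arcB .cap r j (by omega) _ _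
  · subst h2
    rw [← hS.chain hF (by omega) (crs_up _) hl.1 hv, ev_one, T_zero, one_mul]
    exact h.capUp r _ _ (by omega)
  · subst h3 h4
    have : S = [] ∨ 1 ≤ S.length := by cases S <;> simp
    refine (h.circ (B S) v (this.imp (fun e => by rw [e]; rfl) (fun e => by omega)) hv).trans ?_
    simp [ev, mon]; ring
  · subst h3
    obtain ⟨k, rfl⟩ : ∃ k, r = k + 1 := ⟨r - 1, by omega⟩
    rw [← hS.chain hF (by omega) (crs_dn _ _) hl.2.1 hv, ev_one, Nat.add_sub_cancel]
    exact h.capDn k _ _ (by omega)
  · subst h5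
    obtain ⟨k, rfl⟩ : ∃ k, i = k + 1 := ⟨i - 1, by omega⟩
    rw [← hS.chain hF (by omega) (crs_up _) hl.2.2 hv, ev_one, Nat.add_sub_cancel, arc_succ,
      ← List.append_assoc, h.ca, List.append_assoc, h.capUp k _ _ (by omega)]
    rfl
  · obtain ⟨p, rfl⟩ : ∃ p, i = p + 1 := ⟨i - 1, by omega⟩
    obtain ⟨k, rfl⟩ : ∃ k, r = p + 2 + k := ⟨r - p - 2, by omega⟩
    rw [ev_pre, Nat.add_sub_cancel, ← hS _ _ _ hn (arc_ne _ _),
      show p + 2 + k - 2 = p + 0 + k by omega]
    exact h.arcU .cap p k _ _

lemma snd_skn (h : KS Q) {F : Act} {n : ℕ} (hS : Snd Q F n) (hF : Len F) (b c : Bool) (i r : ℕ)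
    (S R' : List ℕ) (hn : 2 * S.length ≤ n) (hi : i ≤ 2 * S.length) (hr : r ≤ 2 * S.length)
    (v : Word) (e : Q (B (r :: S) ++ X c i :: v) = Q (B R' ++ v)) :
    Q (B (r :: S) ++ X b i :: v) = ev Q (skn F b c i r S R') v := by
  unfold skn
  split_ifs with hb
  · rw [hb, e, ev_one, T_zero, one_mul]
  have h1 := h.sk (B (r :: S)) v i (by rw [cn_B, List.length_cons]; omega)
  rw [snd_capS h hS hF i r S hn hi hr _ (List.cons_ne_nil _ _)] at h1
  have h2 : ∀ Y : List It, ev Q (Y.map fun t => (cupI i t.1, Mo.mul ((0, 1), 1) t.2)) v =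
      C (T 1) * ev Q Y (U i :: v) := fun Y => by
    induction Y with
    | nil => simp [ev]
    | cons t Y ih =>
      rw [List.map_cons, ev_cons, ev_cons, ih, mon_mul, h.cupI]
      simp only [mon, T_zero, Int.cast_one]; ring
  rw [ev_cons, ev_cons, h2, ← e]
  simp only [mon, T_zero, Int.cast_one, Int.cast_neg, map_one]
  cases b <;> cases c
  · exact absurd rfl hb
  · linear_combination h1
  · linear_combination h1
  · exact absurd rfl hb

lemma snd_step (h : KS Q) {F : Act} {n : ℕ} (hS : Snd Q F n) (hF : Len F) :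
    Snd Q (step F) (n + 2) := by
  rintro ⟨g, i⟩ R v hn hv
  have z : ∀ (g : Letter) (r : ℕ) (S : List ℕ), g.inp = 2 →
      (2 * S.length < i ∨ 2 * S.length < r) → Q (B (r :: S) ++ (g, i) :: v) = 0 := by
    rintro g r S hg (h1 | h1)
    · exact h.inv _ _ _ _ (by rw [cn_B, List.length_cons]; omega)
    · rw [B, List.append_assoc]; exact h.arc_inv _ _ _ (by rw [cn_B]; omega)
  cases g with
  | cup d => rw [h.flag, h.cupI, step, ev_one, T_zero, one_mul]
  | cap =>
    cases R with
    | nil => exact h.inv _ _ _ _ (by simp [B, cn, Letter.inp])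
    | cons r S =>
      rw [step]
      split_ifs with h0
      · exact z _ r S rfl h0
      · exact snd_capS h hS hF i r S (by simp at hn; omega) (by omega) (by omega) v hv
  | cr b =>
    cases R with
    | nil => exact h.inv _ _ _ _ (by simp [B, cn, Letter.inp])
    | cons r S =>
      rw [step]
      split_ifs with h0
      · exact z _ r S rfl h0
      have hi : i ≤ 2 * S.length := by omega
      have hr : r ≤ 2 * S.length := by omega
      have hn' : 2 * S.length ≤ n := by simp at hn; omega
      have hc := cn_B S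
      unfold crS
      by_cases h1 : r + 2 ≤ i
      · obtain ⟨j, rfl⟩ : ∃ j, i = j + 2 := ⟨i - 2, by omega⟩
        rw [if_pos h1, ev_pre, Nat.add_sub_cancel, ← hS _ _ _ hn' (arc_ne _ _), B,
          List.append_assoc]
        exact h.arcB (.cr b) r j (by omega) _ _
      rw [if_neg h1]
      by_cases h2 : i = r + 1
      · rw [if_pos h2]
        refine snd_skn h hS hF _ _ _ _ _ _ hn' hi hr v ?_
        rw [B, B, List.append_assoc, List.append_assoc, arc_succ, h2]
      rw [if_neg h2]
      by_cases h3 : i = 0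
      · rw [if_pos h3]
        subst h3
        by_cases h4 : r = 0
        · subst h4
          rw [if_pos rfl, ev_one, B, List.append_assoc, List.append_assoc]
          exact h.cu _ _ b 0
        rw [if_neg h4]
        cases S with
        | nil => simp at hr; omega
        | cons s S' =>
          dsimp only
          split_ifs with h5
          · refine snd_skn h hS hF _ _ _ _ _ _ hn' hi hr v ?_
            obtain ⟨t, rfl⟩ : ∃ t, r = t + 2 := ⟨r - 2, by omega⟩
            simp only [B, List.append_assoc, Nat.add_sub_cancel]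
            exact h.swapArc s t (by omega) _ _
          · refine snd_skn h hS hF _ _ _ _ _ _ hn' hi hr v ?_
            obtain ⟨t, rfl⟩ : ∃ t, r = t + 1 := ⟨r - 1, by omega⟩
            simp only [B, List.append_assoc, Nat.add_sub_cancel]
            exact h.swapArc' s t (by omega) _ _
      rw [if_neg h3]
      by_cases h4 : i = r
      · rw [if_pos h4]
        subst h4
        refine snd_skn h hS hF _ _ _ _ _ _ hn' hi hr v ?_
        obtain ⟨t, rfl⟩ : ∃ t, i = t + 1 := ⟨i - 1, by omega⟩
        rw [B, B, List.append_assoc, List.append_assoc, Nat.add_sub_cancel, arc_succ,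
          ← List.append_assoc, ← List.append_assoc (B S)]
        exact h.r2 _ v true (t + 1) (by rw [cn_arc]; omega)
      · rw [if_neg h4]
        obtain ⟨p, rfl⟩ : ∃ p, i = p + 1 := ⟨i - 1, by omega⟩
        obtain ⟨k, rfl⟩ : ∃ k, r = p + 2 + k := ⟨r - p - 2, by omega⟩
        rw [ev_pre, Nat.add_sub_cancel, ← hS _ _ _ hn' (arc_ne _ _), B, List.append_assoc]
        exact h.arcU (.cr b) p k _ _

lemma snd_act (h : KS Q) (f : ℕ) : Snd Q (act f) (2 * f) := by
  induction f with
  | zero =>
    rintro ⟨g, i⟩ R v hn -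
    obtain rfl : R = [] := List.length_eq_zero_iff.1 (by omega)
    cases g with
    | cup d => rw [h.flag, h.cupI, act, step, ev_one, T_zero, one_mul]
    | cap => exact h.inv _ _ _ _ (by simp [B, cn, Letter.inp])
    | cr b => exact h.inv _ _ _ _ (by simp [B, cn, Letter.inp])
  | succ f ih => exact snd_step h ih (len_act f)

end Pool.Agent.Lib.MP_3a4f2f_gt.H89
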