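import Pool.Agent.Lib.MP_3a4f2f_gt.H89.Ex

/-!
First part of the evaluation.
-/

set_option autoImplicit false
set_option maxRecDepth 100000

namespace Pool.Agent.Lib.MP_3a4f2f_gt.H89

theorem run1 : runV (act 4) (2 * 4) (w2.take 10)
    ((runV (act 5) (2 * 5) (w1 ++ [A 4]) [([], [((0, 0), 1)])]).getD []) = some V1 := by
  decide +kernel

theorem run0 : (runV (act 5) (2 * 5) (w1 ++ [A 4]) [([], [((0, 0), 1)])]).isSome = true := by
  decide +kernel

end Pool.Agent.Lib.MP_3a4f2f_gt.H89
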