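import Pool.Agent.Lib.MP_3a4f2f_gt.H89.Ex

/-!
Second part of the evaluation.
-/

set_option autoImplicit false
set_option maxRecDepth 100000

namespace Pool.Agent.Lib.MP_3a4f2f_gt.H89

theorem run2 : runV (act 4) (2 * 4) ((w2.drop 10).take 4) V1 = some V2 := by decide +kernel

end Pool.Agent.Lib.MP_3a4f2f_gt.H89
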