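import Pool.Agent.Lib.MP_3a4f2f_gt.H89.Ex1
import Pool.Agent.Lib.MP_3a4f2f_gt.H89.Ex2
import Pool.Agent.Lib.MP_3a4f2f_gt.H89.Ex3

/-!
The least exponent of the Kauffman polynomial of the example.
-/

set_option autoImplicit false

namespace Pool.Agent.Lib.MP_3a4f2f_gt.H89

open LaurentPolynomial

instance decUValid : ∀ (n : ℕ) (w : Word) (m : ℕ), Decidable (UValid n w m)
  | n, [], m => inferInstanceAs (Decidable (n = m))
  | n, g :: w, m =>
    @instDecidableAnd _ _ (inferInstanceAs (Decidable (g.2 + g.1.inp ≤ n)))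
      (decUValid (n - g.1.inp + g.1.out) w m)

instance decValid : ∀ (E : List Bool) (w : Word) (E' : List Bool), Decidable (Valid E w E')
  | E, [], E' => inferInstanceAs (Decidable (E = E'))
  | E, g :: w, E' =>
    @instDecidableAnd _ _ (inferInstanceAs (Decidable (g.2 + g.1.inp ≤ E.length ∧
      (g.1 = .cap → E.getD g.2 true ≠ E.getD (g.2 + 1) true)))) (decValid (next E g) w E')

lemma coeff_T_mul (n j : ℤ) (p : L2) : (T n * p : L2).coeff j = p.coeff (j - n) := by
  induction p using LaurentPolynomial.induction_on' with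
  | add p q hp hq => simp only [mul_add, AddMonoidAlgebra.coeff_add, Finsupp.add_apply, hp, hq]
  | C_mul_T m a =>
    rw [mul_left_comm, ← T_add, ← single_eq_C_mul_T, ← single_eq_C_mul_T]
    simp only [AddMonoidAlgebra.coeff_single, Finsupp.single_apply]
    exact if_congr (by omega) rfl rfl

theorem valid0 : Valid [] (bandClosure 5 bs0) [] := by decide +kernel

lemma KS.capPast {Q : Word → L2} (h : KS Q) (p : ℕ) (x : Word)
    (hx : ∀ g ∈ x, g.1.inp = 2 ∧ g.1.out = 2 ∧ g.2 + 2 ≤ p) (u v : Word) :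
    Q (u ++ (x ++ A p :: v)) = Q (u ++ A p :: (x ++ v)) := by
  induction x generalizing u with
  | nil => rw [List.nil_append, List.nil_append]
  | cons g x ih =>
    obtain ⟨k, i⟩ := g
    obtain ⟨h1, h2, h3⟩ := hx _ List.mem_cons_self
    rw [List.cons_append, snoc, ih (fun g hg => hx g (List.mem_cons_of_mem _ hg)), ← snoc]
    obtain ⟨t, rfl⟩ : ∃ t, p = i + t + 2 := ⟨p - i - 2, by simp only at h3; omega⟩
    have := h.comm u (x ++ v) k .cap i t
    simp only at h1 h2
    rw [h1, h2] at this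
    exact this

theorem value0 {K : Word → L2} (hK : IsKauffman K) : K (bandClosure 5 bs0) = pv p0 := by
  have h := ks_of hK
  have e : bandClosure 5 bs0 = w1 ++ (w2 ++ A 4 :: [A 3, A 2, A 1, A 0]) := by decide +kernel
  have e2 : w1 ++ A 4 :: (w2 ++ [A 3, A 2, A 1, A 0]) = (w1 ++ [A 4]) ++ (w2.take 10 ++
      ((w2.drop 10).take 4 ++ ((w2.drop 14 ++ [A 3, A 2, A 1]) ++ [A 0]))) := by decide +kernel
  have hv : UValid 0 (bandClosure 5 bs0) 0 := by decide +kernel
  have h0 : QK K (bandClosure 5 bs0) = K (bandClosure 5 bs0) := if_pos hv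
  obtain ⟨V0, r0⟩ := Option.isSome_iff_exists.1 run0
  have r1 := run1
  rw [r0, Option.getD_some] at r1
  have c : QK K [U 0, A 0] = 1 := by
    rw [QK, if_pos (by simp [UValid, U, A, Letter.inp, Letter.out])]; exact hK.circle
  have s0 : ∀ v, QK K v = evV (QK K) [([], [((0, 0), 1)])] v := fun v => by simp [evV, pv, mon, B]
  have e1 : B [0] ++ [A 0] = [U 0, A 0] := rfl
  rw [← h0, e, h.capPast 4 w2 (by decide +kernel), e2, s0,
    evV_run (snd_act h 5) _ _ _ r0 _ (by simp), evV_run (snd_act h 4) _ _ _ r1 _ (by simp),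
    evV_run (snd_act h 4) _ _ _ run2 _ (by simp), evV_run (snd_act h 4) _ _ _ run3 _ (by simp)]
  simp only [evV, List.map_cons, List.map_nil, List.sum_cons, List.sum_nil, e1, c, mul_one,
    add_zero]

theorem minExp0 {K : Word → L2} (hK : IsKauffman K) :
    minExp (kauffInv K (bandClosure 5 bs0)) = ((5 : ℤ) : WithTop ℤ) := by
  have hw : writhe (bandClosure 5 bs0) = 8 := by decide +kernel
  have hc : ∀ j : ℤ, (kauffInv K (bandClosure 5 bs0)).coeff j = (pv p0).coeff (8 - j) := fun j => by
    rw [kauffInv, invert_apply, coeff_T_mul, value0 hK, hw]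
    congr 1; ring
  have h3 : ∀ t ∈ p0, t.1.1 ≤ 3 := by decide +kernel
  refine le_antisymm (Finset.min_le (Finsupp.mem_support_iff.2 ?_)) (Finset.le_min fun j hj => ?_)
  · rw [hc, coeff_pv]
    have : (p0.filter fun t => t.1.1 = 8 - 5) = [((3, 1), -1), ((3, 3), 1)] := by decide +kernel
    rw [this]
    intro h
    have h1 := congrArg (fun q : LaurentPolynomial ℤ => q.coeff 3) h
    simp at h1
  · rw [WithTop.coe_le_coe]
    by_contra hlt
    refine Finsupp.mem_support_iff.1 hj ?_
    rw [hc, coeff_pv, List.filter_eq_nil_iff.2 fun t ht => by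
      have := h3 t ht
      simp only [decide_eq_true_eq]; omega]
    rfl

end Pool.Agent.Lib.MP_3a4f2f_gt.H89
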