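import Pool.Agent.Lib.MP_3a4f2f_gt.H89.Un

/-!
First part of the evaluation.
-/

set_option autoImplicit false
set_option maxRecDepth 100000

namespace Pool.Agent.Lib.MP_3a4f2f_gt.H89

theorem urun1 : runV (act 4) (2 * 4) (u0.take 22) [([], [((0, 0), 1)])] = some (d1.map decE) := by
  decide +kernel

end Pool.Agent.Lib.MP_3a4f2f_gt.H89
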