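import Pool.Agent.Lib.MP_3a4f2f_gt.H89.Un

/-!
Third part of the evaluation.
-/

set_option autoImplicit false
set_option maxRecDepth 100000

namespace Pool.Agent.Lib.MP_3a4f2f_gt.H89

theorem urun3 : runV (act 4) (2 * 4) ((u0.drop 26).take 4) (d2.map decE) = some [([0], q0)] := by
  decide +kernel

end Pool.Agent.Lib.MP_3a4f2f_gt.H89
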