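import Pool.Agent.Lib.MP_3a4f2f_gt.H89.Main
import Pool.Agent.Lib.MP_3a4f2f_gt.H89.Un1
import Pool.Agent.Lib.MP_3a4f2f_gt.H89.Un2
import Pool.Agent.Lib.MP_3a4f2f_gt.H89.Un3

/-!
The four-braid example: three crossing changes unknot it and its least exponent is seven.
-/

set_option autoImplicit false

namespace Pool.Agent.Lib.MP_3a4f2f_gt.H89

open LaurentPolynomial

abbrev St : Type := ℕ × {q : Word × Word // Move q.1 q.2}

def go : Word → List St → Option Word
  | w, [] => some w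
  | w, s :: l =>
    if w = w.take s.1 ++ s.2.1.1 ++ w.drop (s.1 + s.2.1.1.length) ∧ Valid [] w [] ∧
        Valid [] (w.take s.1 ++ s.2.1.2 ++ w.drop (s.1 + s.2.1.1.length)) [] then
      go (w.take s.1 ++ s.2.1.2 ++ w.drop (s.1 + s.2.1.1.length)) l
    else none

lemma unk_go {n : ℕ} (l : List St) (w w' : Word) (e : go w l = some w') (h : Unk n w') :
    Unk n w := by
  induction l generalizing w with
  | nil => rw [go, Option.some_inj] at e; exact e ▸ h
  | cons s l ih =>
    rw [go] at e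
    split_ifs at e with hc
    obtain ⟨h1, h2, h3⟩ := hc
    have := Unk.fwd _ _ _ _ s.2.2 (h1 ▸ h2) h3 (ih _ e)
    rwa [← h1] at this

def flipAt (p : ℕ) (i : ℕ) (w : Word) : Word := w.take p ++ (.cr false, i) :: w.drop (p + 1)

lemma unk_flip {n : ℕ} (p i : ℕ) (w : Word) (e : w = w.take p ++ (.cr true, i) :: w.drop (p + 1))
    (h : Unk n (flipAt p i w)) : Unk (n + 1) w := by
  rw [e]; exact Unk.change _ _ true i h

def steps0 : List St :=
  [(8, ⟨(_, _), .reg (.r2 true 1)⟩),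
    (10, ⟨(_, _), .reg (.r2 true 1)⟩),
    (14, ⟨(_, _), .reg (.r2 true 0)⟩),
    (13, ⟨(_, _), .reg (.r2 false 1)⟩),
    (12, ⟨(_, _), .reg (.r2 false 2)⟩),
    (11, ⟨(_, _), .reg (.r2 true 0)⟩),
    (10, ⟨(_, _), .reg (.r2 true 0)⟩),
    (9, ⟨(_, _), .reg (.r2 true 0)⟩),
    (8, ⟨(_, _), .reg (.r2 true 0)⟩),
    (7, ⟨(_, _), .reg (.r2 true 0)⟩),
    (6, ⟨(_, _), .reg (.comm (.cr true) .cap 0 1)⟩),
    (5, ⟨(_, _), .reg (.comm (.cr true) .cap 1 0)⟩),
    (3, ⟨(_, _), .reg (.slideCup true true 2)⟩),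
    (4, ⟨(_, _), .r1Cap false 3⟩),
    (3, ⟨(_, _), .reg (.zag true 2)⟩),
    (4, ⟨(_, _), .reg (.comm (.cr true) .cap 0 0)⟩),
    (2, ⟨(_, _), .reg (.slideCup true true 1)⟩),
    (3, ⟨(_, _), .r1Cap false 2⟩),
    (2, ⟨(_, _), .reg (.zag true 1)⟩),
    (1, ⟨(_, _), .reg (.slideCup true true 0)⟩),
    (2, ⟨(_, _), .r1Cap false 1⟩),
    (1, ⟨(_, _), .reg (.zag true 0)⟩)]

theorem unk0 : Unk 3 u0 := by
  refine unk_flip 9 1 _ (by decide +kernel) (unk_flip 13 1 _ (by decide +kernel)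
    (unk_flip 19 0 _ (by decide +kernel) ?_))
  exact unk_go steps0 _ _ (by decide +kernel) (Unk.circle true)

theorem validU : Valid [] u0 [] := by decide +kernel

theorem valueU {K : Word → L2} (hK : IsKauffman K) : K u0 = pv q0 := by
  have h := ks_of hK
  have e : u0 = u0.take 22 ++ ((u0.drop 22).take 4 ++ ((u0.drop 26).take 4 ++ [A 0])) := by
    decide +kernel
  have hv : UValid 0 u0 0 := by decide +kernel
  have h0 : QK K u0 = K u0 := if_pos hv
  have c : QK K [U 0, A 0] = 1 := by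
    rw [QK, if_pos (by simp [UValid, U, A, Letter.inp, Letter.out])]; exact hK.circle
  have s0 : ∀ v, QK K v = evV (QK K) [([], [((0, 0), 1)])] v := fun v => by simp [evV, pv, mon, B]
  have e1 : B [0] ++ [A 0] = [U 0, A 0] := rfl
  rw [← h0, e, s0, evV_run (snd_act h 4) _ _ _ urun1 _ (by simp),
    evV_run (snd_act h 4) _ _ _ urun2 _ (by simp), evV_run (snd_act h 4) _ _ _ urun3 _ (by simp)]
  simp only [evV, List.map_cons, List.map_nil, List.sum_cons, List.sum_nil, e1, c, mul_one,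
    add_zero]

theorem minExpU {K : Word → L2} (hK : IsKauffman K) :
    minExp (kauffInv K u0) = ((7 : ℤ) : WithTop ℤ) := by
  have hw : writhe u0 = 9 := by decide +kernel
  have hc : ∀ j : ℤ, (kauffInv K u0).coeff j = (pv q0).coeff (9 - j) := fun j => by
    rw [kauffInv, invert_apply, coeff_T_mul, valueU hK, hw]
    congr 1; ring
  have h3 : ∀ t ∈ q0, t.1.1 ≤ 2 := by decide +kernel
  refine le_antisymm (Finset.min_le (Finsupp.mem_support_iff.2 ?_)) (Finset.le_min fun j hj => ?_)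
  · rw [hc, coeff_pv]
    have : (q0.filter fun t => t.1.1 = 9 - 7) =
        [((2, 1), -3), ((2, 3), 14), ((2, 5), -16), ((2, 7), 7), ((2, 9), -1)] := by decide +kernel
    rw [this]
    intro h
    have h1 := congrArg (fun q : LaurentPolynomial ℤ => q.coeff 9) h
    simp only [List.map_cons, List.map_nil, List.sum_cons, List.sum_nil, ← single_eq_C_mul_T,
      AddMonoidAlgebra.coeff_add, Finsupp.add_apply, AddMonoidAlgebra.coeff_single,
      Finsupp.single_apply] at h1
    simp at h1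
  · rw [WithTop.coe_le_coe]
    by_contra hlt
    refine Finsupp.mem_support_iff.1 hj ?_
    rw [hc, coeff_pv, List.filter_eq_nil_iff.2 fun t ht => by
      have := h3 t ht
      simp only [decide_eq_true_eq]; omega]
    rfl

end Pool.Agent.Lib.MP_3a4f2f_gt.H89
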