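import Pool.Agent.Lib.MP_3a4f2f_gt.EqFix
import Pool.Agent.Lib.MP_3a4f2f_gt.Defs

/-!
Moves for the Kauffman invariant extended by zero to invalid words; layered arcs.
-/

set_option autoImplicit false

namespace Pool.Agent.Lib.MP_3a4f2f_gt.H89

open LaurentPolynomial

def U (i : ℕ) : Letter × ℕ := (.cup true, i)
def A (i : ℕ) : Letter × ℕ := (.cap, i)
def X (b : Bool) (i : ℕ) : Letter × ℕ := (.cr b, i)

/-- Number of strands after a word. -/
def cn (n : ℕ) (w : Word) : ℕ := w.foldl (fun n g => n - g.1.inp + g.1.out) n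

lemma cn_append (n : ℕ) (u v : Word) : cn n (u ++ v) = cn (cn n u) v := by
  simp [cn, List.foldl_append]

lemma cn_cons (n : ℕ) (g : Letter × ℕ) (v : Word) :
    cn n (g :: v) = cn (n - g.1.inp + g.1.out) v := rfl

lemma cn_nil (n : ℕ) : cn n [] = n := rfl

lemma uv_append (n m : ℕ) (u v : Word) :
    UValid n (u ++ v) m ↔ UValid n u (cn n u) ∧ UValid (cn n u) v m := by
  induction u generalizing n with
  | nil => simp [UValid, cn_nil]
  | cons g u ih => simp only [List.cons_append, UValid, ih, cn_cons, and_assoc]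

structure KS (Q : Word → L2) : Prop where
  inv : ∀ u v g i, cn 0 u < i + Letter.inp g → Q (u ++ (g, i) :: v) = 0
  flag : ∀ u v d i, Q (u ++ (.cup d, i) :: v) = Q (u ++ U i :: v)
  comm : ∀ u v k l i t, Q (u ++ (k, i) :: (l, i + t + Letter.out k) :: v) =
    Q (u ++ (l, i + t + Letter.inp k) :: (k, i) :: v)
  zig : ∀ u v i, i + 1 ≤ cn 0 u → Q (u ++ U (i + 1) :: A i :: v) = Q (u ++ v)
  zag : ∀ u v i, i + 1 ≤ cn 0 u → Q (u ++ U i :: A (i + 1) :: v) = Q (u ++ v)
  slU : ∀ u v b i, Q (u ++ U (i + 1) :: X b i :: v) = Q (u ++ U i :: X (!b) (i + 1) :: v)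
  slA : ∀ u v b i, Q (u ++ X b i :: A (i + 1) :: v) = Q (u ++ X (!b) (i + 1) :: A i :: v)
  r2 : ∀ u v b i, i + 2 ≤ cn 0 u → Q (u ++ X b i :: X (!b) i :: v) = Q (u ++ v)
  r3 : ∀ u v i, Q (u ++ X true i :: X true (i + 1) :: X true i :: v) =
    Q (u ++ X true (i + 1) :: X true i :: X true (i + 1) :: v)
  cu : ∀ u v b i, Q (u ++ U i :: X b i :: v) = T (if b then -1 else 1) * Q (u ++ U i :: v)
  ca : ∀ u v b i, Q (u ++ X b i :: A i :: v) = T (if b then -1 else 1) * Q (u ++ A i :: v)
  sk : ∀ u v i, i + 2 ≤ cn 0 u → Q (u ++ X true i :: v) + Q (u ++ X false i :: v) =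
    C (T 1) * (Q (u ++ v) + Q (u ++ A i :: U i :: v))

open Classical in
/-- `K` on valid words, zero on the others. -/
noncomputable def QK (K : Word → L2) (w : Word) : L2 := if UValid 0 w 0 then K w else 0

lemma uv_cast {n m : ℕ} {v : Word} (h : UValid n v 0) (e : m = n) : UValid m v 0 := e ▸ h

lemma QK_eq {K : Word → L2} {u x y : Word} (κ : L2)
    (hv : UValid (cn 0 u) x 0 ↔ UValid (cn 0 u) y 0)
    (h : UValid 0 (u ++ x) 0 → K (u ++ x) = κ * K (u ++ y)) :
    QK K (u ++ x) = κ * QK K (u ++ y) := by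
  have e : UValid 0 (u ++ x) 0 ↔ UValid 0 (u ++ y) 0 := by rw [uv_append, uv_append, hv]
  unfold QK
  by_cases h1 : UValid 0 (u ++ x) 0
  · rw [if_pos h1, if_pos (e.1 h1), h h1]
  · rw [if_neg h1, if_neg (fun h2 => h1 (e.2 h2)), mul_zero]

lemma QK_mv {K : Word → L2} (hK : IsKauffman K) (u v : Word) {x y : Word} (hm : RMove x y)
    (hv : UValid (cn 0 u) (x ++ v) 0 ↔ UValid (cn 0 u) (y ++ v) 0) :
    QK K (u ++ (x ++ v)) = QK K (u ++ (y ++ v)) := by
  rw [← one_mul (QK K (u ++ (y ++ v)))]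
  refine QK_eq 1 hv fun h => ?_
  have := hK.move u v x y hm (by rwa [List.append_assoc])
  rwa [List.append_assoc, List.append_assoc, ← one_mul (K (u ++ (y ++ v)))] at this

theorem ks_of {K : Word → L2} (hK : IsKauffman K) : KS (QK K) where
  inv u v g i h := by
    unfold QK
    rw [if_neg]
    rw [uv_append]
    rintro ⟨-, h2, -⟩
    simp only at h2
    omega
  flag u v d i := by
    rw [← one_mul (QK K (u ++ U i :: v))]
    refine QK_eq 1 Iff.rfl fun _ => ?_
    cases d
    · rw [one_mul, hK.flag]; rfl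
    · rw [one_mul]; rfl
  comm u v k l i t := by
    refine QK_mv hK u v (.comm k l i t) ?_
    simp only [List.cons_append, List.nil_append, UValid]
    constructor <;> rintro ⟨h1, h2, h3⟩ <;> exact ⟨by omega, by omega, uv_cast h3 (by omega)⟩
  zig u v i h := by
    refine QK_mv hK u v (.zig true i) ?_
    simp only [List.cons_append, List.nil_append, UValid, Letter.inp, Letter.out]
    exact ⟨fun h1 => uv_cast h1.2.2 (by omega),
      fun h1 => ⟨by omega, by omega, uv_cast h1 (by omega)⟩⟩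
  zag u v i h := by
    refine QK_mv hK u v (.zag true i) ?_
    simp only [List.cons_append, List.nil_append, UValid, Letter.inp, Letter.out]
    exact ⟨fun h1 => uv_cast h1.2.2 (by omega),
      fun h1 => ⟨by omega, by omega, uv_cast h1 (by omega)⟩⟩
  slU u v b i := by
    refine QK_mv hK u v (.slideCup true b i) ?_
    simp only [List.cons_append, List.nil_append, UValid, Letter.inp, Letter.out]
    constructor <;> rintro ⟨h1, h2, h3⟩ <;> exact ⟨by omega, by omega, uv_cast h3 (by omega)⟩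
  slA u v b i := by
    refine QK_mv hK u v (.slideCap b i) ?_
    simp only [List.cons_append, List.nil_append, UValid, Letter.inp, Letter.out]
    constructor <;> rintro ⟨h1, h2, h3⟩ <;> exact ⟨by omega, by omega, uv_cast h3 (by omega)⟩
  r2 u v b i h := by
    refine QK_mv hK u v (.r2 b i) ?_
    simp only [List.cons_append, List.nil_append, UValid, Letter.inp, Letter.out]
    exact ⟨fun h1 => uv_cast h1.2.2 (by omega),
      fun h1 => ⟨by omega, by omega, uv_cast h1 (by omega)⟩⟩
  r3 u v i := by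
    refine QK_mv hK u v (.r3 true i) ?_
    simp only [List.cons_append, List.nil_append, UValid, Letter.inp, Letter.out]
    constructor <;> rintro ⟨h1, h2, h3, h4⟩ <;>
      exact ⟨by omega, by omega, by omega, uv_cast h4 (by omega)⟩
  cu u v b i := by
    refine QK_eq _ ?_ (hK.curlCup u v true b i)
    simp only [U, X, UValid, Letter.inp, Letter.out]
    exact ⟨fun h1 => ⟨h1.1, uv_cast h1.2.2 (by omega)⟩,
      fun h1 => ⟨h1.1, by omega, uv_cast h1.2 (by omega)⟩⟩
  ca u v b i := by
    refine QK_eq _ ?_ (hK.curlCap u v b i)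
    simp only [A, X, UValid, Letter.inp, Letter.out]
    exact ⟨fun h1 => ⟨h1.1, uv_cast h1.2.2 (by omega)⟩,
      fun h1 => ⟨h1.1, by omega, uv_cast h1.2 (by omega)⟩⟩
  sk u v i h := by
    have e1 : ∀ b, UValid 0 (u ++ X b i :: v) 0 ↔ UValid 0 (u ++ v) 0 := fun b => by
      simp only [uv_append, X, UValid, Letter.inp, Letter.out]
      exact and_congr_right fun _ => ⟨fun h1 => uv_cast h1.2 (by omega),
        fun h1 => ⟨h, uv_cast h1 (by omega)⟩⟩
    have e2 : UValid 0 (u ++ A i :: U i :: v) 0 ↔ UValid 0 (u ++ v) 0 := by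
      simp only [uv_append, A, U, UValid, Letter.inp, Letter.out]
      exact and_congr_right fun _ => ⟨fun h1 => uv_cast h1.2.2 (by omega),
        fun h1 => ⟨h, by omega, uv_cast h1 (by omega)⟩⟩
    unfold QK
    by_cases h1 : UValid 0 (u ++ v) 0
    · rw [if_pos h1, if_pos ((e1 _).2 h1), if_pos ((e1 _).2 h1), if_pos (e2.2 h1)]
      exact hK.skein u v i ((e1 true).2 h1)
    · rw [if_neg h1, if_neg (fun h2 => h1 ((e1 _).1 h2)), if_neg (fun h2 => h1 ((e1 _).1 h2)),
        if_neg (fun h2 => h1 (e2.1 h2))]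
      simp

/-- A strand descending over `k` strands. -/
def dn : ℕ → ℕ → Word
  | _, 0 => []
  | s, k + 1 => X true s :: dn (s + 1) k

/-- A strand ascending over `k` strands to the top. -/
def up : ℕ → Word
  | 0 => []
  | k + 1 => X false k :: up k

/-- An arc from the top position over `r` strands. -/
def arc (r : ℕ) : Word := U 0 :: dn 1 r

lemma dn_add (s a b : ℕ) : dn s (a + b) = dn s a ++ dn (s + a) b := by
  induction a generalizing s with
  | zero => simp [dn]
  | succ a ih =>
    rw [show a + 1 + b = (a + b) + 1 by omega, dn, dn, ih, show s + 1 + a = s + (a + 1) by omega]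
    rfl

lemma arc_succ (r : ℕ) (v : Word) : arc (r + 1) ++ v = arc r ++ X true (r + 1) :: v := by
  rw [arc, arc, dn_add, add_comm 1 r]; simp [dn]

lemma cn_dn (n s k : ℕ) (h : 2 ≤ n) : cn n (dn s k) = n := by
  induction k generalizing s with
  | zero => rfl
  | succ k ih =>
    rw [dn, cn_cons]
    simp only [X, Letter.inp, Letter.out]
    rw [show n - 2 + 2 = n by omega, ih]

lemma cn_arc (u : Word) (r : ℕ) : cn 0 (u ++ arc r) = cn 0 u + 2 := by
  rw [cn_append, arc, cn_cons]
  simp only [U, Letter.inp, Letter.out]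
  rw [cn_dn _ _ _ (by omega)]; rfl

lemma cn_snoc (u : Word) (g : Letter × ℕ) :
    cn 0 (u ++ [g]) = cn 0 u - g.1.inp + g.1.out := by rw [cn_append]; rfl

variable {Q : Word → L2}

lemma snoc (u : Word) (g : Letter × ℕ) (v : Word) : u ++ g :: v = (u ++ [g]) ++ v := by simp

namespace KS

lemma arc_inv (h : KS Q) (u v : Word) (r : ℕ) (hr : cn 0 u < r) : Q (u ++ (arc r ++ v)) = 0 := by
  obtain ⟨k, rfl⟩ : ∃ k, r = (cn 0 u + 1) + k := ⟨r - (cn 0 u + 1), by omega⟩
  have e : arc (cn 0 u + 1 + k) ++ v =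
      arc (cn 0 u) ++ X true (cn 0 u + 1) :: (dn (1 + (cn 0 u + 1)) k ++ v) := by
    rw [← arc_succ, arc, arc, dn_add]; simp
  rw [e, ← List.append_assoc]
  refine h.inv _ _ _ _ ?_
  rw [cn_arc]; simp [Letter.inp]

lemma below (h : KS Q) (g : Letter) (p k : ℕ) (s : ℕ) (u v : Word) (hp : s + k + 1 ≤ p) :
    Q (u ++ (dn s k ++ (g, p) :: v)) = Q (u ++ (g, p) :: (dn s k ++ v)) := by
  induction k generalizing s u with
  | zero => rfl
  | succ k ih =>
    rw [dn, List.cons_append, snoc, ih (s + 1) _ (by omega), ← snoc]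
    obtain ⟨t, rfl⟩ : ∃ t, p = s + t + 2 := ⟨p - s - 2, by omega⟩
    exact h.comm u _ (.cr true) g s t

lemma above (h : KS Q) (g : Letter) (p k : ℕ) (t : ℕ) (u v : Word) :
    Q (u ++ (dn (p + t + g.inp) k ++ (g, p) :: v)) =
      Q (u ++ (g, p) :: (dn (p + t + g.out) k ++ v)) := by
  induction k generalizing t u with
  | zero => rfl
  | succ k ih =>
    rw [dn, List.cons_append, snoc, show p + t + g.inp + 1 = p + (t + 1) + g.inp by omega, ih,
      ← snoc, dn, show p + t + g.out + 1 = p + (t + 1) + g.out by omega]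
    exact (h.comm u _ g (.cr true) p t).symm

/-- A piece below the lower end of an arc. -/
lemma arcB (h : KS Q) (g : Letter) (r i : ℕ) (hi : r ≤ i) (u v : Word) :
    Q (u ++ (arc r ++ (g, i + 2) :: v)) = Q (u ++ (g, i) :: (arc r ++ v)) := by
  rw [arc, List.cons_append, snoc, h.below g _ _ _ _ _ (by omega), ← snoc]
  have := h.comm u (dn 1 r ++ v) (.cup true) g 0 i
  simpa [Letter.out, Letter.inp, U] using this

lemma loc (h : KS Q) (g : Letter) (p : ℕ) (u v : Word) (hp : p + 1 + g.inp ≤ cn 0 u) :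
    Q (u ++ (dn p g.inp ++ (g, p) :: v)) = Q (u ++ (g, p + 1) :: (dn p g.out ++ v)) := by
  cases g with
  | cup d =>
    simp only [Letter.inp, Letter.out, dn, List.nil_append, List.cons_append] at hp ⊢
    rw [h.flag, h.flag u _ d (p + 1), h.slU, snoc u (U p) (X _ _ :: _)]
    have := h.r2 (u ++ [U p]) v false (p + 1) (by rw [cn_snoc]; simp [U, Letter.inp, Letter.out]; omega)
    simp only [Bool.not_false, Bool.not_true] at this ⊢
    rw [this, ← snoc]
  | cap =>
    simp only [Letter.inp, Letter.out, dn, List.nil_append, List.cons_append] at hp ⊢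
    have h1 := h.slA (u ++ [X true p]) v false p
    have h2 := h.r2 u (A (p + 1) :: v) true p (by omega)
    simp only [Bool.not_false, Bool.not_true, ← snoc] at h1 h2
    exact h1.symm.trans h2
  | cr b =>
    simp only [Letter.inp, Letter.out, dn, List.nil_append, List.cons_append] at hp ⊢
    cases b
    · have h1 := h.r2 u (X true p :: X true (p + 1) :: X false p :: v) false (p + 1) (by omega)
      have h2 := h.r3 (u ++ [X false (p + 1)]) (X false p :: v) p
      have h3 := h.r2 (u ++ [X false (p + 1), X true p, X true (p + 1)]) v true p (by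
        rw [cn_append]; simp only [cn_cons, cn_nil, X, Letter.inp, Letter.out]; omega)
      simp only [Bool.not_false, Bool.not_true, List.append_assoc, List.cons_append,
        List.nil_append] at h1 h2 h3
      exact h1.symm.trans (h2.symm.trans h3)
    · exact h.r3 u v p

/-- A piece under an arc. -/
lemma arcU (h : KS Q) (g : Letter) (p k : ℕ) (u v : Word) :
    Q (u ++ (arc (p + g.inp + k) ++ (g, p + 1) :: v)) =
      Q (u ++ (g, p) :: (arc (p + g.out + k) ++ v)) := by
  by_cases hp : cn 0 u < p + g.inp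
  · rw [h.arc_inv _ _ _ (by omega), h.inv _ _ _ _ hp]
  have e : ∀ (a : ℕ) (w : Word), arc (p + a + k) ++ w =
      arc p ++ (dn (p + 1) a ++ (dn (p + 1 + 0 + a) k ++ w)) := fun a w => by
    rw [arc, arc, dn_add, dn_add, add_comm 1 p, show 1 + (p + a) = p + 1 + 0 + a by omega]
    simp
  rw [e, e, ← List.append_assoc, ← List.append_assoc, h.above, List.append_assoc,
    h.loc g (p + 1) _ _ (by rw [cn_arc]; omega), List.append_assoc, h.arcB g p p le_rfl]

lemma dnU (h : KS Q) (k j t : ℕ) (ht : j + k + 1 ≤ t) (u v : Word) :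
    Q (u ++ (dn j k ++ (arc t ++ v))) = Q (u ++ (arc t ++ (dn (j + 1) k ++ v))) := by
  induction k generalizing j u with
  | zero => rfl
  | succ k ih =>
    rw [dn, List.cons_append, snoc, ih (j + 1) (by omega), ← snoc, dn, List.cons_append]
    obtain ⟨m, rfl⟩ : ∃ m, t = j + 2 + m := ⟨t - j - 2, by omega⟩
    exact (h.arcU (.cr true) j m u _).symm

/-- Exchange of the two top arcs. -/
lemma swapArc (h : KS Q) (s t : ℕ) (ht : s ≤ t) (u v : Word) :
    Q (u ++ (arc s ++ (arc (t + 2) ++ X false 0 :: v))) = Q (u ++ (arc t ++ (arc (s + 1) ++ v))) := by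
  have h1 := h.arcU (.cup true) 0 t u (dn 2 s ++ X false 0 :: v)
  have h2 := h.above (.cr false) 0 s 0 (u ++ arc t ++ [U 1]) v
  have h3 := h.slU (u ++ arc t) (dn 2 s ++ v) false 0
  simp only [Letter.inp, Letter.out, zero_add, List.append_assoc, List.cons_append,
    List.nil_append, Bool.not_false] at h1 h2 h3
  rw [arc, List.cons_append, snoc, h.dnU s 1 (t + 2) (by omega), ← snoc, add_comm t 2]
  exact h1.symm.trans (h2.trans h3)

lemma swapArc' (h : KS Q) (s r : ℕ) (hr : r ≤ s) (u v : Word) :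
    Q (u ++ (arc s ++ (arc (r + 1) ++ X true 0 :: v))) = Q (u ++ (arc r ++ (arc (s + 2) ++ v))) := by
  rw [← h.swapArc r s hr]
  have := h.r2 (u ++ arc r ++ arc (s + 2)) v false 0 (by rw [cn_arc]; omega)
  simpa only [List.append_assoc, Bool.not_false] using this

lemma capUp (h : KS Q) (r : ℕ) (u v : Word) (hu : 1 ≤ cn 0 u) :
    Q (u ++ (arc r ++ A (r + 1) :: v)) = Q (u ++ (up r ++ v)) := by
  induction r generalizing u with
  | zero => exact h.zag u v 0 hu
  | succ r ih =>
    rw [arc_succ, ← List.append_assoc, h.slA, List.append_assoc]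
    refine (h.arcB (.cr false) r r le_rfl u _).trans ?_
    rw [snoc, ih _ (by rw [cn_snoc]; simp [Letter.out]), ← snoc]
    rfl

lemma kink (h : KS Q) (b : Bool) (u v : Word) (hu : 1 ≤ cn 0 u) :
    Q (u ++ U 0 :: X (!b) 1 :: A 0 :: v) = T (if b then -1 else 1) * Q (u ++ v) := by
  rw [snoc, ← h.slA, ← snoc, h.cu, h.zag u v 0 hu]

lemma capDn (h : KS Q) (r : ℕ) (u v : Word) (hu : 1 ≤ cn 0 u) :
    Q (u ++ (arc (r + 1) ++ A 0 :: v)) = T 1 * Q (u ++ (dn 0 r ++ v)) := by
  have h1 := h.above .cap 0 r 0 (u ++ [U 0, X true 1]) v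
  simp only [Letter.inp, Letter.out, zero_add, List.append_assoc, List.cons_append,
    List.nil_append] at h1
  exact h1.trans (h.kink false u _ hu)

lemma circ1 (h : KS Q) (u v : Word) (hu : 1 ≤ cn 0 u) :
    Q (u ++ U 0 :: A 0 :: v) = (C (T (-1)) * (T 1 + T (-1)) - 1) * Q (u ++ v) := by
  have h1 := h.sk (u ++ [U 0]) (A 0 :: v) 1 (by rw [cn_snoc]; simp [U, Letter.inp, Letter.out]; omega)
  have h2 := h.kink true u v hu
  have h3 := h.kink false u v hu
  have h4 := h.zag u (U 1 :: A 0 :: v) 0 hu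
  have h5 := h.zig u v 0 hu
  simp only [← snoc, Bool.not_true, Bool.not_false, if_true, Bool.false_eq_true, if_false,
    zero_add] at h1 h2 h3 h4 h5
  rw [h2, h3, h4, h5] at h1
  have e : (C (T (-1)) : L2) * C (T 1) = 1 := by rw [← map_mul, ← T_add]; simp
  linear_combination (-(C (T (-1)) : L2)) * h1 - (Q (u ++ U 0 :: A 0 :: v) + Q (u ++ v)) * e

lemma circ (h : KS Q) (u v : Word) (hu : u = [] ∨ 1 ≤ cn 0 u) (hv : v ≠ []) :
    Q (u ++ U 0 :: A 0 :: v) = (C (T (-1)) * (T 1 + T (-1)) - 1) * Q (u ++ v) := by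
  rcases hu with rfl | hu
  swap
  · exact h.circ1 u v hu
  obtain ⟨⟨g, i⟩, v, rfl⟩ := List.exists_cons_of_ne_nil hv
  by_cases hg : 0 < i + g.inp
  · rw [h.inv [] v g i hg, mul_zero]
    exact h.inv [U 0, A 0] v g i hg
  obtain rfl : i = 0 := by omega
  cases g with
  | cup d =>
    have h1 := h.comm [U 0] v .cap (.cup d) 0 0
    have h2 := h.comm [] (A 0 :: v) (.cup true) (.cup d) 0 0
    have h3 := h.circ1 [(.cup d, 0)] v (by simp [cn, Letter.inp, Letter.out])
    exact h1.trans (h2.trans h3)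
  | cap => simp [Letter.inp] at hg
  | cr b => simp [Letter.inp] at hg

end KS

end Pool.Agent.Lib.MP_3a4f2f_gt.H89
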