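import Pool.Agent.Lib.MP_3a4f2f_gt.H89.Eval

/-!
Evaluation of a whole word, collecting terms after each letter.
-/

set_option autoImplicit false

namespace Pool.Agent.Lib.MP_3a4f2f_gt.H89

open LaurentPolynomial

section merge

variable {K D : Type} (cmp : K → K → Ordering) (add : D → D → D) (z : D → Bool)

def mrg : ℕ → List (K × D) → List (K × D) → List (K × D)
  | 0, a, b => a ++ b
  | _ + 1, [], b => b
  | _ + 1, s :: a, [] => s :: a
  | f + 1, s :: a, t :: b =>
    match cmp s.1 t.1 with
    | .lt => s :: mrg f a (t :: b)
    | .gt => t :: mrg f (s :: a) b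
    | .eq => bif z (add s.2 t.2) then mrg f a b else (s.1, add s.2 t.2) :: mrg f a b

def pass (f : ℕ) : List (List (K × D)) → List (List (K × D))
  | a :: b :: l => mrg cmp add z f a b :: pass f l
  | l => l

def passes (f : ℕ) : ℕ → List (List (K × D)) → List (List (K × D))
  | 0, l => l
  | k + 1, l => passes f k (pass cmp add z f l)

variable {cmp add z} (e : K × D → L2) (hc : ∀ k k', cmp k k' = .eq → k = k')
  (ha : ∀ k c d, e (k, add c d) = e (k, c) + e (k, d)) (hz : ∀ k c, z c = true → e (k, c) = 0)

include hc ha hz

lemma mrg_sum (f : ℕ) (a b : List (K × D)) :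
    ((mrg cmp add z f a b).map e).sum = (a.map e).sum + (b.map e).sum := by
  induction f generalizing a b with
  | zero => simp [mrg]
  | succ f ih =>
    rcases a with _ | ⟨⟨k, c⟩, a⟩
    · simp [mrg]
    rcases b with _ | ⟨⟨k', d⟩, b⟩
    · simp [mrg]
    rw [mrg]
    split
    · simp only [List.map_cons, List.sum_cons, ih]; ring
    · simp only [List.map_cons, List.sum_cons, ih]; ring
    · rename_i h
      obtain rfl := hc _ _ h
      have h1 := ha k c d
      cases h2 : z (add c d)
      · simp only [cond_false, List.map_cons, List.sum_cons, ih, h1]; ring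
      · rw [hz _ _ h2] at h1
        simp only [cond_true, List.map_cons, List.sum_cons, ih]
        linear_combination h1

lemma pass_sum (f : ℕ) : ∀ l : List (List (K × D)),
    ((pass cmp add z f l).flatten.map e).sum = (l.flatten.map e).sum
  | [] => by rw [pass]; simp
  | [a] => by rw [pass]; simp
  | a :: b :: l => by
    rw [pass]
    simp only [List.flatten_cons, List.map_append, List.sum_append, mrg_sum e hc ha hz,
      pass_sum f l, add_assoc]

lemma passes_sum (f k : ℕ) (l : List (List (K × D))) :
    ((passes cmp add z f k l).flatten.map e).sum = (l.flatten.map e).sum := by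
  induction k generalizing l with
  | zero => rw [passes]
  | succ k ih => rw [passes, ih, pass_sum e hc ha hz]

end merge

def cmpL : List ℕ → List ℕ → Ordering
  | [], [] => .eq
  | [], _ :: _ => .lt
  | _ :: _, [] => .gt
  | a :: l, b :: m => bif Nat.blt a b then .lt else bif Nat.blt b a then .gt else cmpL l m

lemma cmpL_eq : ∀ l m, cmpL l m = .eq → l = m
  | [], [], _ => rfl
  | [], _ :: _, h => by simp [cmpL] at h
  | _ :: _, [], h => by simp [cmpL] at h
  | a :: l, b :: m, h => by
    rw [cmpL] at h
    cases h1 : Nat.blt a b <;> cases h2 : Nat.blt b a <;> simp only [h1, h2, cond_true, cond_false,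
      reduceCtorEq] at h
    rw [← Bool.not_eq_true, Nat.blt_eq] at h1 h2
    rw [cmpL_eq l m h, show a = b by omega]

def cmpE (s t : ℤ × ℤ) : Ordering :=
  if s.1 < t.1 then .lt else if t.1 < s.1 then .gt else
    if s.2 < t.2 then .lt else if t.2 < s.2 then .gt else .eq

lemma cmpE_eq (s t : ℤ × ℤ) (h : cmpE s t = .eq) : s = t := by
  unfold cmpE at h
  split_ifs at h
  exact Prod.ext (by omega) (by omega)

abbrev Po : Type := List Mo

noncomputable def pv (p : Po) : L2 := (p.map mon).sum

def padd (p q : Po) : Po := mrg cmpE (· + ·) (fun c => decide (c = 0)) 100000 p q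

lemma pv_add (p q : Po) : pv (padd p q) = pv p + pv q :=
  mrg_sum mon cmpE_eq (fun k c d => by simp only [mon, Int.cast_add]; ring)
    (fun k c h => by simp only [mon, of_decide_eq_true h]; simp) _ _ _

lemma pv_scl (m : Mo) (p : Po) : pv (p.map m.mul) = mon m * pv p := by
  induction p with
  | nil => simp [pv]
  | cons t p ih =>
    simp only [pv, List.map_cons, List.sum_cons] at ih ⊢
    rw [ih, mon_mul]; ring

abbrev Vec : Type := List (List ℕ × Po)

noncomputable def evV (Q : Word → L2) (V : Vec) (v : Word) : L2 :=
  (V.map fun t => pv t.2 * Q (B t.1 ++ v)).sum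

def spread (F : Act) (g : Letter × ℕ) : Vec → List Vec
  | [] => []
  | t :: V => ((F g t.1).map fun s => [(s.1, t.2.map s.2.mul)]) ++ spread F g V

def stepV (F : Act) (g : Letter × ℕ) (V : Vec) : Vec :=
  (passes cmpL padd List.isEmpty 100000 16 (spread F g V)).flatten

def runV (F : Act) (n : ℕ) : Word → Vec → Option Vec
  | [], V => some V
  | g :: w, V => bif V.all (fun t => Nat.ble (2 * t.1.length) n) then runV F n w (stepV F g V)
      else none

variable {Q : Word → L2}

lemma evV_step {F : Act} {n : ℕ} (h : Snd Q F n) (g : Letter × ℕ) (V : Vec)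
    (hV : ∀ t ∈ V, 2 * t.1.length ≤ n) (v : Word) (hv : v ≠ []) :
    evV Q V (g :: v) = evV Q (stepV F g V) v := by
  rw [stepV, evV, evV, passes_sum _ cmpL_eq (fun k c d => by simp only [pv_add]; ring)
    (fun k c h => by rw [List.isEmpty_iff.1 h]; simp [pv])]
  induction V with
  | nil => simp [spread]
  | cons t V ih =>
    rw [spread, List.map_cons, List.sum_cons, List.flatten_append, List.map_append,
      List.sum_append, ← ih fun t ht => hV t (List.mem_cons_of_mem _ ht),
      h g t.1 v (hV t List.mem_cons_self) hv]
    congr 1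
    generalize F g t.1 = Y
    induction Y with
    | nil => simp [ev_nil]
    | cons s Y ih2 =>
      rw [ev_cons, mul_add, ih2]
      simp only [List.map_cons, List.flatten_cons, List.map_append, List.sum_append,
        List.sum_cons, List.map_nil, List.sum_nil, pv_scl]
      ring

lemma evV_run {F : Act} {n : ℕ} (h : Snd Q F n) (w : Word) (V V' : Vec)
    (e : runV F n w V = some V') (v : Word) (hv : v ≠ []) : evV Q V (w ++ v) = evV Q V' v := by
  induction w generalizing V with
  | nil => rw [runV, Option.some_inj] at e; rw [e, List.nil_append]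
  | cons g w ih =>
    rw [runV] at e
    cases h1 : V.all (fun t => Nat.ble (2 * t.1.length) n) <;> rw [h1] at e
    · simp at e
    rw [List.cons_append, evV_step h g V
      (fun t ht => Nat.le_of_ble_eq_true (List.all_eq_true.1 h1 t ht)) _ (by simp [hv])]
    exact ih _ e

lemma coeff_mon (t : Mo) (i : ℤ) :
    (mon t).coeff i = if t.1.1 = i then C t.2 * T t.1.2 else 0 := by
  have : mon t = C (C t.2 * T t.1.2) * T t.1.1 := by
    simp only [mon, map_mul, eq_intCast, map_intCast]; ring
  rw [this, ← single_eq_C_mul_T]
  simp only [AddMonoidAlgebra.coeff_single, Finsupp.single_apply]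

lemma coeff_pv (p : Po) (i : ℤ) :
    (pv p).coeff i = ((p.filter fun t => t.1.1 = i).map fun t => C t.2 * T t.1.2).sum := by
  induction p with
  | nil => simp [pv]
  | cons t p ih =>
    simp only [pv, List.map_cons, List.sum_cons, AddMonoidAlgebra.coeff_add,
      Finsupp.add_apply] at ih ⊢
    rw [ih, coeff_mon, List.filter_cons]
    split_ifs with h1 h2 h2 <;> simp_all

end Pool.Agent.Lib.MP_3a4f2f_gt.H89
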